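import Mathlib

/-!
Reduction of algebraic integers modulo a prime number, and sums of an odd number of powers.
-/

set_option autoImplicit false

open Polynomial

namespace Pool.Agent.X317.Pro

/-- An algebraic closure of the field with `ℓ` elements. -/
abbrev FBar (ℓ : ℕ) [Fact ℓ.Prime] : Type := AlgebraicClosure (ZMod ℓ)

theorem exists_red (ℓ : ℕ) [hl : Fact ℓ.Prime] :
    Nonempty (integralClosure ℤ ℂ →+* FBar ℓ) := by
  have hp : (Ideal.span {(ℓ : ℤ)}).IsMaximal := by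
    have h1 : Prime (ℓ : ℤ) := Nat.prime_iff_prime_int.1 hl.out
    exact PrincipalIdealRing.isMaximal_of_irreducible h1.irreducible
  have hint : Algebra.IsIntegral ℤ (integralClosure ℤ ℂ) := inferInstance
  obtain ⟨Q, hQ, hQP⟩ := Ideal.exists_ideal_over_maximal_of_isIntegral
    (S := integralClosure ℤ ℂ) (Ideal.span {(ℓ : ℤ)}) (by
      have : RingHom.ker (algebraMap ℤ (integralClosure ℤ ℂ)) = ⊥ := by
        rw [RingHom.ker_eq_bot_iff_eq_zero]
        intro x hx
        have h2 := congrArg (fun y : integralClosure ℤ ℂ => (y : ℂ)) hx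
        simpa using h2
      rw [this]
      exact bot_le)
  let i1 : Field (integralClosure ℤ ℂ ⧸ Q) := Ideal.Quotient.field Q
  have hch : ((ℓ : ℕ) : integralClosure ℤ ℂ ⧸ Q) = 0 := by
    have h1 : ((ℓ : ℤ)) ∈ Q.comap (algebraMap ℤ (integralClosure ℤ ℂ)) := by
      rw [hQP]
      exact Ideal.mem_span_singleton_self _
    have h2 : (algebraMap ℤ (integralClosure ℤ ℂ) (ℓ : ℤ)) ∈ Q := h1
    rw [← Ideal.Quotient.eq_zero_iff_mem] at h2
    simpa using h2
  have hchar : CharP (integralClosure ℤ ℂ ⧸ Q) ℓ := by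
    obtain ⟨c, hc⟩ := CharP.exists (integralClosure ℤ ℂ ⧸ Q)
    have h3 : c ∣ ℓ := (CharP.cast_eq_zero_iff _ c ℓ).1 hch
    rcases (Nat.dvd_prime hl.out).1 h3 with h4 | h4
    · subst h4
      have h5 := CharP.cast_eq_zero (integralClosure ℤ ℂ ⧸ Q) 1
      rw [Nat.cast_one] at h5
      exact absurd h5 one_ne_zero
    · rwa [h4] at hc
  let i2 : Algebra (ZMod ℓ) (integralClosure ℤ ℂ ⧸ Q) := ZMod.algebra _ ℓ
  have halg : Algebra.IsAlgebraic (ZMod ℓ) (integralClosure ℤ ℂ ⧸ Q) := by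
    refine ⟨fun x => ?_⟩
    obtain ⟨y, rfl⟩ := Ideal.Quotient.mk_surjective x
    obtain ⟨f, hf, hfy⟩ := hint.isIntegral y
    refine ⟨f.map (Int.castRingHom (ZMod ℓ)), (hf.map _).ne_zero, ?_⟩
    have h6 : aeval (Ideal.Quotient.mk Q y) (f.map (Int.castRingHom (ZMod ℓ))) =
        Ideal.Quotient.mk Q (eval₂ (algebraMap ℤ (integralClosure ℤ ℂ)) y f) := by
      rw [aeval_def, eval₂_map, hom_eval₂]
      congr 1
      exact RingHom.ext_int _ _
    rw [h6, hfy, map_zero]
  exact ⟨(IsAlgClosed.lift (R := ZMod ℓ) (S := integralClosure ℤ ℂ ⧸ Q)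
    (M := FBar ℓ)).toRingHom.comp (Ideal.Quotient.mk Q)⟩

/-- a value which is not zero modulo `ℓ` is not zero -/
theorem aeval_ne {ℓ : ℕ} [Fact ℓ.Prime] (φ : integralClosure ℤ ℂ →+* FBar ℓ)
    (a : integralClosure ℤ ℂ) {q : ℕ} (hq : (q : FBar ℓ) ≠ 0) (i : ℕ) (P : ℤ[X])
    (h : aeval (φ a / (q : FBar ℓ) ^ i) P ≠ 0) : aeval ((a : ℂ) / (q : ℂ) ^ i) P ≠ 0 := by
  intro h0
  have hqC : (q : ℂ) ≠ 0 := by
    intro h1
    apply hq
    have h2 : q = 0 := by exact_mod_cast h1
    rw [h2, Nat.cast_zero]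
  apply h
  have h1 : aeval (a : ℂ) (P.scaleRoots ((q : ℤ) ^ i)) = 0 := by
    have h2 := scaleRoots_aeval_eq_zero (r := (q : ℤ) ^ i) h0
    have h3 : algebraMap ℤ ℂ ((q : ℤ) ^ i) * ((a : ℂ) / (q : ℂ) ^ i) = a := by
      rw [map_pow]
      simp only [eq_intCast, Int.cast_natCast]
      field_simp
    rwa [h3] at h2
  have h2 : aeval a (P.scaleRoots ((q : ℤ) ^ i)) = 0 := by
    have h3 : algebraMap (integralClosure ℤ ℂ) ℂ (aeval a (P.scaleRoots ((q : ℤ) ^ i))) = 0 := by
      rw [← aeval_algebraMap_apply]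
      exact h1
    exact (map_eq_zero_iff _ Subtype.val_injective).1 h3
  have h3 : aeval (φ a) (P.scaleRoots ((q : ℤ) ^ i)) = 0 := by
    have h4 := congrArg φ h2
    rw [map_zero, aeval_def, hom_eval₂] at h4
    rw [aeval_def, ← h4]
    congr 1
    exact RingHom.ext_int _ _
  have h4 := scaleRoots_eval₂_mul (f := algebraMap ℤ (FBar ℓ)) (p := P)
    (φ a / (q : FBar ℓ) ^ i) ((q : ℤ) ^ i)
  have h5 : algebraMap ℤ (FBar ℓ) ((q : ℤ) ^ i) * (φ a / (q : FBar ℓ) ^ i) = φ a := by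
    rw [map_pow]
    simp only [eq_intCast, Int.cast_natCast]
    field_simp
  rw [h5, ← aeval_def, h3] at h4
  rcases mul_eq_zero.1 h4.symm with h6 | h6
  · exfalso
    have h7 := eq_zero_of_pow_eq_zero h6
    rw [map_pow] at h7
    have h8 := eq_zero_of_pow_eq_zero h7
    apply hq
    simpa using h8
  · exact h6

/-- an odd number of the powers `x ^ (ℓ ^ a)`, `a < 2 g`, of an element `x` of order `ℓ ^ g + 1` has
a product different from one -/
theorem prod_ne_one {F : Type*} [Field F] {ℓ g : ℕ} (hl : 2 ≤ ℓ) {x : F}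
    (hx : orderOf x = ℓ ^ g + 1) (A : Finset ℕ) (hA : ∀ a ∈ A, a < 2 * g) (hodd : Odd A.card) :
    ∏ a ∈ A, x ^ ℓ ^ a ≠ 1 ∧ (∏ a ∈ A, x ^ ℓ ^ a) ^ (ℓ ^ g + 1) = 1 := by
  classical
  rw [Finset.prod_pow_eq_pow_sum]
  refine ⟨fun h => ?_, ?_⟩
  · have h1 : ℓ ^ g + 1 ∣ ∑ a ∈ A, ℓ ^ a := by
      rw [← hx]
      exact orderOf_dvd_of_pow_eq_one h
    set A1 := A.filter (fun a => a < g) with hA1
    set A2 := (A.filter (fun a => ¬ a < g)).image (fun a => a - g) with hA2
    have hinj : Set.InjOn (fun a => a - g) (A.filter (fun a => ¬ a < g) : Finset ℕ) := by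
      intro a ha b hb hab
      rw [Finset.mem_coe, Finset.mem_filter] at ha hb
      have : a - g = b - g := hab
      omega
    have hU := Nat.geomSum_lt (m := ℓ) (n := g) (s := A1) hl (fun k hk => by
      rw [hA1, Finset.mem_filter] at hk
      exact hk.2)
    have hW := Nat.geomSum_lt (m := ℓ) (n := g) (s := A2) hl (fun k hk => by
      rw [hA2, Finset.mem_image] at hk
      obtain ⟨a, ha, rfl⟩ := hk
      rw [Finset.mem_filter] at ha
      have := hA a ha.1
      omega)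
    have hsum : ∑ a ∈ A, ℓ ^ a = ∑ a ∈ A1, ℓ ^ a + ℓ ^ g * ∑ a ∈ A2, ℓ ^ a := by
      rw [← Finset.sum_filter_add_sum_filter_not A (fun a => a < g), hA2,
        Finset.sum_image hinj, Finset.mul_sum]
      congr 1
      refine Finset.sum_congr rfl fun a ha => ?_
      rw [Finset.mem_filter] at ha
      rw [← pow_add]
      congr 1
      omega
    have hcard : A.card = A1.card + A2.card := by
      rw [hA2, Finset.card_image_of_injOn hinj, hA1]
      exact (Finset.card_filter_add_card_filter_not (s := A) (fun a => a < g)).symm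
    set U := ∑ a ∈ A1, ℓ ^ a with hUd
    set W := ∑ a ∈ A2, ℓ ^ a with hWd
    have h2 : ((ℓ ^ g + 1 : ℕ) : ℤ) ∣ (U : ℤ) - W := by
      have h3 : ((ℓ ^ g + 1 : ℕ) : ℤ) ∣ ((U + ℓ ^ g * W : ℕ) : ℤ) := by
        rw [← hsum]
        exact_mod_cast h1
      have h4 : (U : ℤ) - W = ((U + ℓ ^ g * W : ℕ) : ℤ) - ((ℓ ^ g + 1 : ℕ) : ℤ) * W := by
        push_cast
        ring
      rw [h4]
      exact dvd_sub h3 (Dvd.intro _ rfl)
    have h5 : (U : ℤ) - W = 0 := by
      apply Int.eq_zero_of_abs_lt_dvd h2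
      have h8 : (U : ℤ) < ((ℓ ^ g : ℕ) : ℤ) := by exact_mod_cast hU
      have h9 : (W : ℤ) < ((ℓ ^ g : ℕ) : ℤ) := by exact_mod_cast hW
      have h10 : (0 : ℤ) ≤ U := Int.natCast_nonneg _
      have h11 : (0 : ℤ) ≤ W := Int.natCast_nonneg _
      rw [abs_lt, Nat.cast_add, Nat.cast_one]
      constructor <;> linarith
    have h6 : U = W := by omega
    have h7 : A1 = A2 := Finset.geomSum_injective hl h6
    rw [hcard, h7] at hodd
    exact (Nat.not_even_iff_odd.2 hodd) ⟨_, rfl⟩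
  · rw [← pow_mul, mul_comm, pow_mul, ← hx, pow_orderOf_eq_one, one_pow]

/-- equal families up to a permutation -/
theorem exists_perm_of_map {α β : Type*} [Fintype α] (f g : α → β)
    (h : Multiset.map f Finset.univ.val = Multiset.map g Finset.univ.val) :
    ∃ σ : Equiv.Perm α, ∀ a, f a = g (σ a) := by
  classical
  have hc : ∀ (F : α → β) (c : β), Fintype.card {a // F a = c} =
      Multiset.count c (Multiset.map F Finset.univ.val) := by
    intro F c
    rw [Multiset.count_map, Fintype.card_subtype, Finset.card_def, Finset.filter_val]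
    congr 1
    refine Multiset.filter_congr fun a _ => ?_
    exact ⟨Eq.symm, Eq.symm⟩
  have he : ∀ c : β, Nonempty ({a // f a = c} ≃ {a // g a = c}) := fun c =>
    Fintype.card_eq.1 (by rw [hc, hc, h])
  exact ⟨Equiv.ofFiberEquiv fun c => (he c).some, fun a => (Equiv.ofFiberEquiv_map _ a).symm⟩

end Pool.Agent.X317.Pro
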